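import Pool.Agent.H52.Kron

set_option autoImplicit false
open Finset PowerSeries

namespace Pool.Agent.Results.MP_fb382b_nt.Counter

/-- q-expansion of the level one Eisenstein series of weight `k` -/
noncomputable def E (k : ℕ) : ℚ⟦X⟧ :=
  PowerSeries.mk fun n =>
    if n = 0 then 1 else -(2 * k / bernoulli k) * ArithmeticFunction.sigma (k - 1) n

/-- q-expansion of the discriminant form -/
noncomputable def Disc : ℚ⟦X⟧ := C (1 / 1728 : ℚ) * (E 4 ^ 3 - E 6 ^ 2)

/-- q-expansion of the j-invariant -/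
noncomputable def jInv : LaurentSeries ℚ :=
  ((E 4 ^ 3 : ℚ⟦X⟧) : LaurentSeries ℚ) / ((Disc : ℚ⟦X⟧) : LaurentSeries ℚ)

/-- q-expansion of `E k / (j - j0) ^ r` -/
noncomputable def F (k r : ℕ) (j0 : ℚ) : LaurentSeries ℚ :=
  ((E k : ℚ⟦X⟧) : LaurentSeries ℚ) / (jInv - HahnSeries.C j0) ^ r

/-- the coefficient with index `n * p ^ (l - i)`, zero when this index is not an integer -/
noncomputable def coef (k r : ℕ) (j0 : ℚ) (n p l i : ℕ) : ℚ :=
  if p ^ i ∣ n * p ^ l then (F k r j0).coeff ((n * p ^ l / p ^ i : ℕ) : ℤ) else 0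

/-- j-invariant of an integral Weierstrass model -/
def jC (W : WeierstrassCurve ℤ) : ℚ := (W.c₄ : ℚ) ^ 3 / (W.Δ : ℚ)

/-- `p + 1` minus the number of points of the reduction modulo `p` -/
noncomputable def ap (W : WeierstrassCurve ℤ) (p : ℕ) : ℤ :=
  p + 1 - (1 + Nat.card {z : ZMod p × ZMod p // z.2 ^ 2 + W.a₁ * z.1 * z.2 + W.a₃ * z.2 =
    z.1 ^ 3 + W.a₂ * z.1 ^ 2 + W.a₄ * z.1 + W.a₆})

open H52.Kron

lemma b6 : bernoulli 6 = 1 / 42 := by
  have h5 : bernoulli' 5 = 0 := bernoulli'_eq_zero_of_odd (by decide) (by decide)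
  rw [bernoulli_eq_bernoulli'_of_ne_one (by decide), bernoulli'_def]
  norm_num [sum_range_succ, h5, Nat.choose]

lemma E4 : E 4 = map (Int.castRingHom ℚ) z4 := by
  ext n
  rw [E, coeff_map, z4, coeff_mk, coeff_mk, bernoulli_eq_bernoulli'_of_ne_one (by decide),
    bernoulli'_four, ArithmeticFunction.sigma_apply]
  split_ifs <;> norm_num

lemma E6 : E 6 = map (Int.castRingHom ℚ) z6 := by
  ext n
  rw [E, coeff_map, z6, coeff_mk, coeff_mk, b6, ArithmeticFunction.sigma_apply]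
  split_ifs <;> norm_num

lemma F_eq : ∃ f : ℚ⟦X⟧, F 6 1 (110592 / 37) = f ∧
    (110592 * E 6 ^ 2 - 46656 * E 4 ^ 3) * f = E 6 * (37 * E 4 ^ 3 - 37 * E 6 ^ 2) := by
  have c4 : constantCoeff (E 4) = 1 := by simp [E]
  have c6 : constantCoeff (E 6) = 1 := by simp [E]
  have h0 : constantCoeff (110592 * E 6 ^ 2 - 46656 * E 4 ^ 3) ≠ 0 := by
    simp only [map_sub, map_mul, map_pow, map_ofNat, c4, c6]; norm_num
  have h1 := PowerSeries.mul_inv_cancel _ h0
  have d0 : E 4 ^ 3 - E 6 ^ 2 ≠ 0 := fun h => by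
    have := congrArg (coeff 1) h
    simp only [map_sub, coeff_one_pow, c4, c6] at this
    simp only [E4, E6, z4, z6] at this
    norm_num at this
  refine ⟨E 6 * (37 * E 4 ^ 3 - 37 * E 6 ^ 2) * (110592 * E 6 ^ 2 - 46656 * E 4 ^ 3)⁻¹, ?_,
    by linear_combination E 6 * (37 * E 4 ^ 3 - 37 * E 6 ^ 2) * h1⟩
  generalize (110592 * E 6 ^ 2 - 46656 * E 4 ^ 3)⁻¹ = u at h1
  have h2 := congrArg (HahnSeries.ofPowerSeries ℤ ℚ) h1
  have d1 := (map_ne_zero_iff _ (HahnSeries.ofPowerSeries_injective (Γ := ℤ))).2 d0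
  simp only [F, jInv, Disc, map_sub, map_mul, map_pow, map_ofNat, map_one, pow_one,
    HahnSeries.ofPowerSeries_C, map_div₀] at *
  generalize HahnSeries.ofPowerSeries ℤ ℚ (E 4) = a at *
  generalize HahnSeries.ofPowerSeries ℤ ℚ (E 6) = b at *
  generalize HahnSeries.ofPowerSeries ℤ ℚ u = v at *
  have d2 : 110592 * b ^ 2 - 46656 * a ^ 3 ≠ 0 := left_ne_zero_of_mul_eq_one h2
  have : CharZero (LaurentSeries ℚ) := algebraRat.charZero _
  rw [show a ^ 3 / (1 / 1728 * (a ^ 3 - b ^ 2)) - 110592 / 37 =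
    (110592 * b ^ 2 - 46656 * a ^ 3) / (37 * (a ^ 3 - b ^ 2)) by field_simp; ring,
    eq_inv_of_mul_eq_one_right h2]
  field_simp

lemma close : ∀ n < 4096, padicNorm 5 ((F 6 1 (110592 / 37)).coeff (n : ℕ) - co gg n) ≤
    (5 : ℕ) ^ (-(15 : ℕ) : ℤ) := by
  have : Fact (Nat.Prime 5) := ⟨by norm_num⟩
  obtain ⟨f, h1, h2⟩ := F_eq
  simp only [h1, LaurentSeries.coeff_coe_powerSeries]
  set H := 110592 * z6 ^ 2 - 46656 * z4 ^ 3 with hH
  have h3 : map (Int.castRingHom ℚ) H * (f - map (Int.castRingHom ℚ) zg) =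
      -map (Int.castRingHom ℚ) (H * zg - z6 * (37 * z4 ^ 3 - 37 * z6 ^ 2)) := by
    simp only [hH, map_sub, map_mul, map_pow, map_ofNat, ← E4, ← E6]
    linear_combination h2
  have H0 : coeff 0 H = 63936 := by simp [hH, z4, z6, map_ofNat]
  intro n
  induction n using Nat.strong_induction_on with
  | _ n ih =>
    intro hn
    have h4 := congrArg (coeff n) h3
    rw [coeff_mul, Nat.sum_antidiagonal_eq_sum_range_succ_mk, sum_range_succ', map_neg] at h4
    simp only [coeff_map, eq_intCast, H0, map_sub, zg, coeff_mk, Nat.sub_zero,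
      Int.cast_natCast] at h4
    have h5 := (padicNorm.dvd_iff_norm_le (p := 5) (n := 15)).1 (by exact_mod_cast cong hn)
    have h6 : padicNorm 5 (∑ k ∈ range n, ((coeff (k + 1) H : ℤ) : ℚ) *
        (coeff (n - (k + 1)) f - co gg (n - (k + 1)))) ≤ (5 : ℕ) ^ (-(15 : ℕ) : ℤ) :=
      padicNorm.sum_le' (fun k hk => by
        have := mem_range.1 hk
        rw [padicNorm.mul]
        exact (mul_le_of_le_one_left (padicNorm.nonneg _) (padicNorm.of_int _)).trans
          (ih _ (by omega) (by omega))) (by positivity)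
    have h7 : padicNorm 5 ((63936 : ℤ) : ℚ) = 1 := (padicNorm.int_eq_one_iff _).2 (by norm_num)
    rw [← one_mul (padicNorm 5 _), ← h7, ← padicNorm.mul, eq_sub_of_add_eq' h4]
    refine padicNorm.sub.trans (max_le ?_ h6)
    rw [padicNorm.neg]
    simpa only [map_sub, Int.cast_sub, zg] using h5

/-- A weight, pole order, elliptic curve, good prime at least 5 and indices for which the
conjectured congruence fails. -/
theorem result : ∃ k ∈ ({4, 6, 8, 10, 14} : Finset ℕ), ∃ r : ℕ, 1 ≤ r ∧ r ≤ k - 1 ∧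
    ∃ (W : WeierstrassCurve ℤ) (p : ℕ), p.Prime ∧ 5 ≤ p ∧ ¬ (p : ℤ) ∣ W.Δ ∧
      jC W ≠ 0 ∧ jC W ≠ 1728 ∧ padicValRat p (jC W) = 0 ∧ padicValRat p (jC W - 1728) = 0 ∧
      ∃ c : ℕ → ℤ, (∀ α β : ℂ, α + β = ap W p → α * β = p →
        ∏ i ∈ range (k - 1), (Polynomial.X - Polynomial.C (α ^ (k - 2 - i) * β ^ i)) =
          ∑ i ∈ range k, Polynomial.C (c i : ℂ) * Polynomial.X ^ (k - 1 - i)) ∧
        ∃ n l : ℕ, 1 ≤ n ∧ 1 ≤ l ∧ ∑ i ∈ range k, c i * coef k r (jC W) n p l i ≠ 0 ∧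
          padicValRat p (∑ i ∈ range k, c i * coef k r (jC W) n p l i) <
            ((k : ℤ) - 1) * l - (k - 3) * k / 2 - r := by
  have : Fact (Nat.Prime 5) := ⟨by norm_num⟩
  have hj : jC ⟨0, 0, 1, -1, 0⟩ = 110592 / 37 := by
    norm_num [jC, WeierstrassCurve.c₄, WeierstrassCurve.Δ, WeierstrassCurve.b₂,
      WeierstrassCurve.b₄, WeierstrassCurve.b₆, WeierstrassCurve.b₈]
  have ha : ap ⟨0, 0, 1, -1, 0⟩ 5 = -2 := by
    rw [ap, Nat.card_eq_fintype_card]; decide +kernel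
  refine ⟨6, by simp, 1, le_rfl, by norm_num, ⟨0, 0, 1, -1, 0⟩, 5, by norm_num, le_rfl, by decide,
    by rw [hj]; norm_num, by rw [hj]; norm_num, by rw [hj]; decide +kernel,
    by rw [hj]; decide +kernel,
    fun i => [1, 19, 570, -14250, -296875, -9765625].getD i 0, fun α β h1 h2 => ?_,
    1, 5, le_rfl, by norm_num, ?_⟩
  · rw [ha] at h1
    refine Polynomial.funext fun x => ?_
    push_cast at h1 h2
    have s2 : α ^ 2 + β ^ 2 = -6 := by linear_combination (α + β - 2) * h1 - 2 * h2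
    have q2 : α ^ 2 * β ^ 2 = 25 := by linear_combination (α * β + 5) * h2
    have f1 : (x - α ^ 4) * (x - β ^ 4) = x ^ 2 + 14 * x + 625 := by
      linear_combination -x * (α ^ 2 + β ^ 2 - 6) * s2 + (2 * x + α ^ 2 * β ^ 2 + 25) * q2
    have f2 : (x - α ^ 3 * β) * (x - α * β ^ 3) = x ^ 2 + 30 * x + 625 := by
      linear_combination -x * α * β * s2 + 6 * x * h2 + (α ^ 2 * β ^ 2 + 25) * q2
    simp [prod_range_succ, sum_range_succ, q2]
    linear_combination (x - 25) * ((x - α ^ 3 * β) * (x - α * β ^ 3) * f1 +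
      (x ^ 2 + 14 * x + 625) * f2)
  rw [hj]
  generalize hS : (∑ i ∈ range 6, _ : ℚ) = S
  have h1 : ¬ padicNorm 5 S ≤ (5 : ℕ) ^ (-(15 : ℕ) : ℤ) := fun h => by
    have h2 : padicNorm 5 (∑ i ∈ range 6, (([1, 19, 570, -14250, -296875, -9765625].getD i 0 : ℤ) : ℚ) *
        ((F 6 1 (110592 / 37)).coeff (5 ^ (5 - i) : ℕ) - co gg (5 ^ (5 - i)))) ≤
          (5 : ℕ) ^ (-(15 : ℕ) : ℤ) :=
      padicNorm.sum_le' (fun i _ => by
        rw [padicNorm.mul]
        exact (mul_le_of_le_one_left (padicNorm.nonneg _) (padicNorm.of_int _)).trans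
          (close _ ((Nat.pow_le_pow_right (by norm_num) (Nat.sub_le 5 i)).trans_lt (by norm_num))))
        (by positivity)
    have h3 := padicNorm.sub.trans (max_le h h2)
    have h4 : (5 : ℤ) ^ 15 ∣ co gg 3125 + 19 * co gg 625 + 570 * co gg 125 - 14250 * co gg 25 -
        296875 * co gg 5 - 9765625 * co gg 1 := by
      refine (padicNorm.dvd_iff_norm_le (p := 5)).2 (le_of_eq_of_le (congrArg _ ?_) h3)
      rw [← hS]
      generalize gg = g
      simp [sum_range_succ, coef]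
      ring
    have h5 := vals
    generalize co gg 3125 = a1, co gg 625 = a2, co gg 125 = a3, co gg 25 = a4, co gg 5 = a5,
      co gg 1 = a6 at h4 h5
    norm_num [MM] at h4 h5
    omega
  have h0 : S ≠ 0 := by rintro rfl; exact h1 (by simp)
  refine ⟨h0, ?_⟩
  rw [padicNorm.eq_zpow_of_nonzero h0, zpow_le_zpow_iff_right₀ (by norm_num)] at h1
  norm_num at h1 ⊢
  exact h1

end Pool.Agent.Results.MP_fb382b_nt.Counter
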